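import Pool.Agent.P.MP_e45129_gt.Final

namespace Pool.Agent.Results.MP_e45129_gt.AlmostMinimal

open Filter Topology

/-- `(1/n)U = {x : k x ∈ U for k = 1, …, n}`. -/
def frac {G : Type*} [AddCommGroup G] (U : Set G) (n : ℕ) : Set G :=
  {x | ∀ k : ℕ, 1 ≤ k → k ≤ n → k • x ∈ U}

/-- `σ` is a Hausdorff group topology coarser than `τ` (every `σ`-open set is `τ`-open). -/
def IsCoarserGroupTop {G : Type*} [AddCommGroup G] (σ τ : TopologicalSpace G) : Prop :=
  @IsTopologicalAddGroup G σ _ ∧ @T2Space G σ ∧ ∀ s : Set G, IsOpen[σ] s → IsOpen[τ] s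

/-- minimal: no strictly coarser Hausdorff group topology. -/
def IsMinimal (G : Type*) [AddCommGroup G] [τ : TopologicalSpace G] : Prop :=
  ∀ σ : TopologicalSpace G, IsCoarserGroupTop σ τ → σ = τ

/-- locally minimal: for some neighbourhood `V` of `0`, every coarser Hausdorff group topology in
which `V` is a neighbourhood of `0` is the given one. -/
def IsLocallyMinimal (G : Type*) [AddCommGroup G] [τ : TopologicalSpace G] : Prop :=
  ∃ V ∈ @nhds G τ 0, ∀ σ : TopologicalSpace G, IsCoarserGroupTop σ τ → V ∈ @nhds G σ 0 → σ = τ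

/-- uniformly free from small subgroups. -/
def IsUFSS (G : Type*) [AddCommGroup G] [TopologicalSpace G] : Prop :=
  ∃ U ∈ 𝓝 (0 : G), (∀ x ∈ U, -x ∈ U) ∧ (𝓝 (0 : G)).HasBasis (fun n : ℕ => 1 ≤ n) (frac U)

/-- GTG subset: symmetric, contains `0`, and the sets `(1/n)U` form a neighbourhood basis at `0`
of some (not necessarily Hausdorff) group topology. -/
def IsGTG {G : Type*} [AddCommGroup G] (U : Set G) : Prop :=
  (∀ x ∈ U, -x ∈ U) ∧ (0 : G) ∈ U ∧ ∃ σ : TopologicalSpace G,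
    @IsTopologicalAddGroup G σ _ ∧ (@nhds G σ 0).HasBasis (fun n : ℕ => 1 ≤ n) (frac U)

/-- locally GTG: `0` has a neighbourhood basis of GTG subsets. -/
def IsLocallyGTG (G : Type*) [AddCommGroup G] [TopologicalSpace G] : Prop :=
  ∀ V ∈ 𝓝 (0 : G), ∃ U ∈ 𝓝 (0 : G), U ⊆ V ∧ IsGTG U

/-- almost minimal: some closed subgroup is minimal and has UFSS quotient. -/
def IsAlmostMinimal (G : Type*) [AddCommGroup G] [TopologicalSpace G] : Prop :=
  ∃ N : AddSubgroup G, IsClosed (N : Set G) ∧ IsMinimal N ∧ IsUFSS (G ⧸ N)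

theorem result (G : Type*) [AddCommGroup G] [UniformSpace G] [IsUniformAddGroup G]
    [T2Space G] [CompleteSpace G] (h1 : IsLocallyGTG G) (h2 : IsLocallyMinimal G) :
    IsAlmostMinimal G := by
  obtain ⟨V, hV, hmin⟩ := h2
  obtain ⟨N, hN, hW⟩ := Pool.Agent.P.MP_e45129_gt.main (G := G)
    (fun V hV => by
      obtain ⟨U, hU, hUV, -, -, h⟩ := h1 V hV
      exact ⟨U, hU, hUV, h⟩)
    ⟨V, hV, fun σ a b c d => hmin σ ⟨a, b, c⟩ d⟩
  have : CompactSpace N := isCompact_iff_compactSpace.mp hN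
  exact ⟨N, hN.isClosed,
    fun σ hσ => @Pool.Agent.P.MP_e45129_gt.eq_of_compact_of_le N (_) this σ hσ.2.1 hσ.2.2, hW⟩

end Pool.Agent.Results.MP_e45129_gt.AlmostMinimal
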